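import Pool.Agent.U350.DL.Count

/-!
The core inequality: few dilations of a choice of residue classes cover few integers.
-/

set_option autoImplicit false

namespace Pool.Agent.U350.DL

open Finset

variable {P : Finset ℕ} {a : (p : ℕ) → ZMod p} {M N : ℕ} {x : ℝ}

theorem sum_hit_eq (s : Finset (ℕ × ℕ)) :
    ∑ v ∈ s, ((hit P a v.1 v.2).card : ℝ) =
      ∑ p ∈ P, ((s.filter (fun v => (v.2 : ZMod p) = (v.1 : ZMod p) * a p)).card : ℝ) := by
  have h1 : ∀ v : ℕ × ℕ, ((hit P a v.1 v.2).card : ℝ) =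
      ∑ p ∈ P, (if (v.2 : ZMod p) = (v.1 : ZMod p) * a p then (1 : ℝ) else 0) := by
    intro v; rw [hit, card_filter]; push_cast; rfl
  simp_rw [h1]
  rw [sum_comm]
  apply sum_congr rfl
  intro p _
  rw [card_filter]; push_cast; rfl

/-- points of a box in one class -/
theorem box_hit (p : ℕ) (hp : 0 < p) (M' N' : ℕ) :
    (((box M' N').filter (fun v => (v.2 : ZMod p) = (v.1 : ZMod p) * a p)).card : ℝ) ≤ M' * ((N' : ℝ) / p + 1) := by
  have h1 : ((box M' N').filter (fun v => (v.2 : ZMod p) = (v.1 : ZMod p) * a p)).card =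
      ∑ m ∈ Icc 1 M', ((Icc 1 N').filter (fun n : ℕ => (n : ZMod p) = (m : ZMod p) * a p)).card := by
    rw [box, card_filter, sum_product]
    apply sum_congr rfl
    intro m _
    rw [card_filter]
  rw [h1]; push_cast
  calc ∑ m ∈ Icc 1 M', (((Icc 1 N').filter (fun n : ℕ => (n : ZMod p) = (m : ZMod p) * a p)).card : ℝ)
      ≤ ∑ m ∈ Icc 1 M', ((N' : ℝ) / p + 1) := sum_le_sum fun m _ => (cls N' p hp _).2
    _ = M' * ((N' : ℝ) / p + 1) := by rw [sum_const, Nat.card_Icc, nsmul_eq_mul]; simp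

/-- first moment over the vectors with large greatest common divisor -/
theorem large_gcd (hP : ∀ p ∈ P, p.Prime ∧ M < p ∧ x ≤ p) (hx : 0 < x) {G : ℕ} (hG : 1 ≤ G) :
    ∑ v ∈ (box M N).filter (fun v => G ≤ Nat.gcd v.1 v.2), ((hit P a v.1 v.2).card : ℝ) ≤
      P.card * ((M * N / x) * (2 / G) + M * (1 + Real.log M)) := by
  classical
  rw [sum_hit_eq]
  have key : ∀ p ∈ P, ((((box M N).filter (fun v => G ≤ Nat.gcd v.1 v.2)).filter
      (fun v => (v.2 : ZMod p) = (v.1 : ZMod p) * a p)).card : ℝ) ≤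
      (M * N / x) * (2 / G) + M * (1 + Real.log M) := by
    intro p hp
    obtain ⟨hpp, hMp, hxp⟩ := hP p hp
    haveI : Fact p.Prime := ⟨hpp⟩
    set A := ((box M N).filter (fun v => G ≤ Nat.gcd v.1 v.2)).filter
      (fun v => (v.2 : ZMod p) = (v.1 : ZMod p) * a p) with hA
    set T : ℕ → Finset (ℕ × ℕ) := fun g => (box (M / g) (N / g)).filter
      (fun v => (v.2 : ZMod p) = (v.1 : ZMod p) * a p) with hT
    have hmap : ∀ v ∈ A, phi v ∈ ((Icc G M).sigma T).image (fun y => (y.1, y.2)) := by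
      intro v hv
      rw [hA, mem_filter, mem_filter, mem_box] at hv
      obtain ⟨⟨⟨⟨h1, h2⟩, h3, h4⟩, h5⟩, h6⟩ := hv
      have hg : 0 < Nat.gcd v.1 v.2 := Nat.gcd_pos_of_pos_left _ h1
      have hgM : Nat.gcd v.1 v.2 ≤ M := (Nat.gcd_le_left _ h1).trans h2
      rw [mem_image]
      refine ⟨⟨(phi v).1, (phi v).2⟩, ?_, rfl⟩
      rw [mem_sigma, mem_Icc]
      refine ⟨⟨h5, hgM⟩, ?_⟩
      rw [hT, mem_filter, mem_box]
      refine ⟨⟨⟨Nat.div_pos (Nat.gcd_le_left _ h1) hg, Nat.div_le_div_right h2⟩,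
        Nat.div_pos (Nat.gcd_le_right _ h3) hg, Nat.div_le_div_right h4⟩, ?_⟩
      have a1 : v.1 = Nat.gcd v.1 v.2 * (v.1 / Nat.gcd v.1 v.2) := (Nat.mul_div_cancel' (Nat.gcd_dvd_left _ _)).symm
      have a2 : v.2 = Nat.gcd v.1 v.2 * (v.2 / Nat.gcd v.1 v.2) := (Nat.mul_div_cancel' (Nat.gcd_dvd_right _ _)).symm
      have h0 : ((Nat.gcd v.1 v.2 : ℕ) : ZMod p) ≠ 0 := by
        rw [Ne, ZMod.natCast_eq_zero_iff]
        intro hd
        have := Nat.le_of_dvd hg hd
        omega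
      have h7 : ((Nat.gcd v.1 v.2 * (v.2 / Nat.gcd v.1 v.2) : ℕ) : ZMod p) =
          ((Nat.gcd v.1 v.2 * (v.1 / Nat.gcd v.1 v.2) : ℕ) : ZMod p) * a p := by
        rw [← a1, ← a2]; exact h6
      push_cast at h7
      rw [mul_assoc] at h7
      exact mul_left_cancel₀ h0 h7
    have hinj : Set.InjOn phi (A : Set (ℕ × ℕ)) := by
      intro u hu v hv h
      rw [mem_coe, hA, mem_filter, mem_filter, mem_box] at hu hv
      exact phi_inj hu.1.1.1.1 hv.1.1.1.1 h
    have hc : A.card ≤ ∑ g ∈ Icc G M, (T g).card := by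
      calc A.card ≤ (((Icc G M).sigma T).image (fun y => (y.1, y.2))).card :=
            card_le_card_of_injOn phi hmap hinj
        _ ≤ ((Icc G M).sigma T).card := card_image_le
        _ = _ := card_sigma _ _
    have hM0 : (0 : ℝ) ≤ M := Nat.cast_nonneg _
    have hN0 : (0 : ℝ) ≤ N := Nat.cast_nonneg _
    have hTg : ∀ g ∈ Icc G M, ((T g).card : ℝ) ≤ (M * N / x) * ((g : ℝ) ^ 2)⁻¹ + M * (g : ℝ)⁻¹ := by
      intro g hg
      rw [mem_Icc] at hg
      have hg0 : (0 : ℝ) < g := by exact_mod_cast (by omega : 0 < g)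
      have h1 := box_hit (a := a) p hpp.pos (M / g) (N / g)
      have h2 : ((M / g : ℕ) : ℝ) ≤ M / g := Nat.cast_div_le
      have h3 : ((N / g : ℕ) : ℝ) ≤ N / g := Nat.cast_div_le
      have hp0 : (0 : ℝ) < p := by linarith
      have h4 : ((N / g : ℕ) : ℝ) / p ≤ (N / g) / x := by
        calc ((N / g : ℕ) : ℝ) / p ≤ (N / g) / p := div_le_div_of_nonneg_right h3 hp0.le
          _ ≤ (N / g) / x := div_le_div_of_nonneg_left (by positivity) hx hxp
      calc ((T g).card : ℝ) ≤ ((M / g : ℕ) : ℝ) * (((N / g : ℕ) : ℝ) / p + 1) := h1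
        _ ≤ (M / g) * ((N / g) / x + 1) := by
            apply mul_le_mul h2 (by linarith) (by positivity) (by positivity)
        _ = (M * N / x) * ((g : ℝ) ^ 2)⁻¹ + M * (g : ℝ)⁻¹ := by field_simp
    have hs1 : ∑ g ∈ Icc G M, ((g : ℝ) ^ 2)⁻¹ ≤ 2 / G := by
      have h1 := sum_Ioo_inv_sq_le (α := ℝ) (G - 1) (M + 1)
      have h2 : Icc G M = Ioo (G - 1) (M + 1) := by
        ext g; rw [mem_Icc, mem_Ioo]; omega
      have h3 : ((G - 1 : ℕ) : ℝ) + 1 = G := by
        have : G - 1 + 1 = G := by omega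
        exact_mod_cast this
      rw [h2]
      rw [h3] at h1
      exact h1
    have hs2 : ∑ g ∈ Icc G M, (g : ℝ)⁻¹ ≤ 1 + Real.log M := by
      have h1 := harmonic_le_one_add_log M
      rw [harmonic_eq_sum_Icc] at h1
      push_cast at h1
      calc ∑ g ∈ Icc G M, (g : ℝ)⁻¹ ≤ ∑ g ∈ Icc 1 M, (g : ℝ)⁻¹ :=
            sum_le_sum_of_subset_of_nonneg (Icc_subset_Icc_left hG) (fun g _ _ => by positivity)
        _ ≤ _ := h1
    have h1 : (A.card : ℝ) ≤ ∑ g ∈ Icc G M, ((T g).card : ℝ) := by exact_mod_cast hc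
    calc (A.card : ℝ) ≤ ∑ g ∈ Icc G M, ((T g).card : ℝ) := h1
      _ ≤ ∑ g ∈ Icc G M, ((M * N / x) * ((g : ℝ) ^ 2)⁻¹ + M * (g : ℝ)⁻¹) := sum_le_sum hTg
      _ = (M * N / x) * ∑ g ∈ Icc G M, ((g : ℝ) ^ 2)⁻¹ + M * ∑ g ∈ Icc G M, (g : ℝ)⁻¹ := by
          rw [sum_add_distrib, mul_sum, mul_sum]
      _ ≤ _ := by
          apply add_le_add
          · exact mul_le_mul_of_nonneg_left hs1 (by positivity)
          · exact mul_le_mul_of_nonneg_left hs2 hM0
  calc _ ≤ ∑ p ∈ P, ((M * N / x) * (2 / G) + M * (1 + Real.log M)) := sum_le_sum key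
    _ = _ := by rw [sum_const, nsmul_eq_mul]

/-- the number of covered integers for the choice multiplied by `m` -/
def cov (P : Finset ℕ) (a : (p : ℕ) → ZMod p) (m N : ℕ) : Finset ℕ :=
  (Icc 1 N).filter (fun n => (hit P a m n).Nonempty)

/-- **Core inequality.** -/
theorem core (hP : ∀ p ∈ P, p.Prime ∧ M < p ∧ x ≤ p ∧ (p : ℝ) < 2 * x) (hx : 0 < x) (hM : 1 ≤ M) (hN : 1 ≤ N)
    (hL : 4 ≤ N / x) {V : ℝ} (B : Finset ℕ) (hB : B ⊆ Icc 1 M) (hB0 : B.Nonempty)
    (hV : ∀ m ∈ B, ((cov P a m N).card : ℝ) ≤ V)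
    (hb : 16 * (M * (1 + Real.log M)) ≤ B.card * (N / x)) :
    ((B.card : ℝ) * P.card * (N / x)) ^ 2 ≤
      2112 * (M * V) * (P.card * (2 + 2 * (M * N) / x) + (P.card : ℝ) ^ 2 * (2 + 2 * (M * N) / x ^ 2)) := by
  classical
  have hM0 : (0 : ℝ) < M := by exact_mod_cast hM
  have hN0 : (0 : ℝ) < N := by exact_mod_cast hN
  set b : ℝ := (B.card : ℝ) with hbdef
  have hb0 : 0 < b := by
    rw [hbdef]; exact_mod_cast hB0.card_pos
  have hbM : b ≤ M := by
    have := card_le_card hB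
    rw [Nat.card_Icc] at this
    rw [hbdef]; exact_mod_cast this
  set π : ℝ := (P.card : ℝ) with hπ
  have hπ0 : 0 ≤ π := Nat.cast_nonneg _
  set L : ℝ := (N : ℝ) / x with hLdef
  have hL0 : 0 < L := by linarith
  set G : ℕ := ⌈32 * M / b⌉₊ with hG
  have hG1 : 32 * M / b ≤ G := Nat.le_ceil _
  have hMb : 1 ≤ M / b := by rw [le_div_iff₀ hb0]; linarith
  have hG2 : (G : ℝ) ≤ 33 * (M / b) := by
    have h1 : (G : ℝ) < 32 * M / b + 1 := Nat.ceil_lt_add_one (by positivity)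
    have h2 : 32 * M / b = 32 * (M / b) := by ring
    rw [h2] at h1; linarith
  have hGpos : 1 ≤ G := by
    have h2 : 32 * M / b = 32 * (M / b) := by ring
    rw [h2] at hG1
    have : (1 : ℝ) ≤ G := by linarith
    exact_mod_cast this
  have hG0 : (0 : ℝ) < G := by exact_mod_cast hGpos
  -- first moment
  set U : Finset (ℕ × ℕ) := B ×ˢ Icc 1 N with hU
  have hUb : U ⊆ box M N := product_subset_product_left hB
  have hfirst : b * (π * (L / 4)) ≤ ∑ v ∈ U, ((hit P a v.1 v.2).card : ℝ) := by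
    rw [hU, sum_product]
    have h1 : ∀ m ∈ B, π * (L / 4) ≤ ∑ n ∈ Icc 1 N, ((hit P a m n).card : ℝ) := by
      intro m _
      have h2 : ∑ n ∈ Icc 1 N, ((hit P a m n).card : ℝ) =
          ∑ p ∈ P, (((Icc 1 N).filter (fun n : ℕ => (n : ZMod p) = (m : ZMod p) * a p)).card : ℝ) := by
        have h3 : ∀ n : ℕ, ((hit P a m n).card : ℝ) =
            ∑ p ∈ P, (if (n : ZMod p) = (m : ZMod p) * a p then (1 : ℝ) else 0) := by
          intro n; rw [hit, card_filter]; push_cast; rfl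
        simp_rw [h3]
        rw [sum_comm]
        apply sum_congr rfl
        intro p _
        rw [card_filter]; push_cast; rfl
      rw [h2]
      calc π * (L / 4) = ∑ p ∈ P, (L / 4) := by rw [sum_const, nsmul_eq_mul]
        _ ≤ _ := by
          apply sum_le_sum
          intro p hp
          obtain ⟨hpp, _, hxp, hp2⟩ := hP p hp
          have h3 := (cls N p hpp.pos ((m : ZMod p) * a p)).1
          have h4 : L / 2 ≤ N / p := by
            rw [hLdef, div_div]
            apply div_le_div_of_nonneg_left hN0.le (by linarith) (by linarith)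
          linarith
    calc b * (π * (L / 4)) = ∑ m ∈ B, (π * (L / 4)) := by rw [sum_const, nsmul_eq_mul]
      _ ≤ _ := sum_le_sum h1
  set A : Finset (ℕ × ℕ) := U.filter (fun v => Nat.gcd v.1 v.2 < G) with hA
  have hsplit := sum_filter_add_sum_filter_not U (fun v : ℕ × ℕ => Nat.gcd v.1 v.2 < G)
    (fun v => ((hit P a v.1 v.2).card : ℝ))
  have hlarge : ∑ v ∈ U.filter (fun v => ¬ Nat.gcd v.1 v.2 < G), ((hit P a v.1 v.2).card : ℝ) ≤
      π * (b * L / 16 + b * L / 16) := by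
    have h1 := large_gcd (P := P) (a := a) (M := M) (N := N) (x := x)
      (fun p hp => ⟨(hP p hp).1, (hP p hp).2.1, (hP p hp).2.2.1⟩) hx hGpos
    have h2 : U.filter (fun v => ¬ Nat.gcd v.1 v.2 < G) ⊆ (box M N).filter (fun v => G ≤ Nat.gcd v.1 v.2) := by
      intro v hv
      rw [mem_filter] at hv ⊢
      exact ⟨hUb hv.1, not_lt.1 hv.2⟩
    have h3 : (M * N / x) * (2 / G) ≤ b * L / 16 := by
      have e : (M * N / x : ℝ) = M * L := by rw [hLdef]; ring
      rw [e]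
      have h4 : 2 / (G : ℝ) ≤ b / (16 * M) := by
        rw [div_le_div_iff₀ hG0 (by positivity)]
        rw [div_le_iff₀ hb0] at hG1
        linarith
      calc M * L * (2 / G) ≤ M * L * (b / (16 * M)) := mul_le_mul_of_nonneg_left h4 (by positivity)
        _ = b * L / 16 := by field_simp
    have h4 : M * (1 + Real.log M) ≤ b * L / 16 := by linarith
    calc _ ≤ ∑ v ∈ (box M N).filter (fun v => G ≤ Nat.gcd v.1 v.2), ((hit P a v.1 v.2).card : ℝ) :=
          sum_le_sum_of_subset_of_nonneg h2 (fun v _ _ => Nat.cast_nonneg _)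
      _ ≤ π * ((M * N / x) * (2 / G) + M * (1 + Real.log M)) := h1
      _ ≤ _ := mul_le_mul_of_nonneg_left (by linarith) hπ0
  have hsmall : b * π * L / 8 ≤ ∑ v ∈ A, ((hit P a v.1 v.2).card : ℝ) := by
    have e1 : b * (π * (L / 4)) = b * π * L / 4 := by ring
    have e2 : π * (b * L / 16 + b * L / 16) = b * π * L / 8 := by ring
    rw [e1] at hfirst
    rw [e2] at hlarge
    rw [← hsplit] at hfirst
    linarith
  -- Cauchy-Schwarz
  set A' : Finset (ℕ × ℕ) := A.filter (fun v => (hit P a v.1 v.2).Nonempty) with hA'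
  have hsum : ∑ v ∈ A, ((hit P a v.1 v.2).card : ℝ) = ∑ v ∈ A', ((hit P a v.1 v.2).card : ℝ) := by
    rw [hA']
    refine (sum_filter_of_ne ?_).symm
    intro v _ h
    by_contra h0
    apply h
    rw [not_nonempty_iff_eq_empty.1 h0]; simp
  have hcs := sq_sum_le_card_mul_sum_sq (s := A') (f := fun v => ((hit P a v.1 v.2).card : ℝ))
  have hcard : (A'.card : ℝ) ≤ b * V := by
    have h1 : A' ⊆ B.biUnion (fun m => (cov P a m N).image (fun n => (m, n))) := by
      intro v hv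
      rw [hA', mem_filter, hA, mem_filter, hU, mem_product] at hv
      rw [mem_biUnion]
      refine ⟨v.1, hv.1.1.1, ?_⟩
      rw [mem_image]
      exact ⟨v.2, by rw [cov, mem_filter]; exact ⟨hv.1.1.2, hv.2⟩, rfl⟩
    have h2 : A'.card ≤ ∑ m ∈ B, (cov P a m N).card :=
      (card_le_card h1).trans (card_biUnion_le.trans (sum_le_sum fun m _ => card_image_le))
    have h3 : (A'.card : ℝ) ≤ ∑ m ∈ B, ((cov P a m N).card : ℝ) := by exact_mod_cast h2
    calc (A'.card : ℝ) ≤ ∑ m ∈ B, ((cov P a m N).card : ℝ) := h3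
      _ ≤ ∑ m ∈ B, V := sum_le_sum hV
      _ = b * V := by rw [sum_const, nsmul_eq_mul]
  have hsq : ∑ v ∈ A', ((hit P a v.1 v.2).card : ℝ) ^ 2 ≤
      G * (π * (2 + 2 * (M * N) / x) + π ^ 2 * (2 + 2 * (M * N) / x ^ 2)) := by
    have h1 := second_gcd (P := P) (a := a) (M := M) (N := N) (fun p hp => ⟨(hP p hp).1, (hP p hp).2.1⟩) G
    have h2 := second (P := P) (a := a) (M := M) (N := N) (x := x)
      (fun p hp => ⟨(hP p hp).1, (hP p hp).2.2.1⟩) hx hM hN
    have h3 : A' ⊆ (box M N).filter (fun v => Nat.gcd v.1 v.2 < G) := by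
      intro v hv
      rw [hA', mem_filter, hA, mem_filter] at hv
      rw [mem_filter]
      exact ⟨hUb hv.1.1, hv.1.2⟩
    calc _ ≤ ∑ v ∈ (box M N).filter (fun v => Nat.gcd v.1 v.2 < G), ((hit P a v.1 v.2).card : ℝ) ^ 2 :=
          sum_le_sum_of_subset_of_nonneg h3 (fun v _ _ => by positivity)
      _ ≤ _ := h1
      _ ≤ _ := mul_le_mul_of_nonneg_left h2 hG0.le
  set Q : ℝ := π * (2 + 2 * (M * N) / x) + π ^ 2 * (2 + 2 * (M * N) / x ^ 2) with hQ
  have hQ0 : 0 ≤ Q := by rw [hQ]; positivity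
  have hV0 : 0 ≤ V := by
    obtain ⟨m, hm⟩ := hB0
    exact (Nat.cast_nonneg _).trans (hV m hm)
  rw [← hsum] at hcs
  have h1 : (b * π * L / 8) ^ 2 ≤ (b * V) * (33 * (M / b) * Q) := by
    calc (b * π * L / 8) ^ 2 ≤ (∑ v ∈ A, ((hit P a v.1 v.2).card : ℝ)) ^ 2 := by
          apply pow_le_pow_left₀ (by positivity) hsmall
      _ ≤ A'.card * ∑ v ∈ A', ((hit P a v.1 v.2).card : ℝ) ^ 2 := hcs
      _ ≤ (b * V) * (G * Q) := by
          apply mul_le_mul hcard hsq (sum_nonneg fun v _ => by positivity) (by positivity)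
      _ ≤ (b * V) * (33 * (M / b) * Q) := by
          apply mul_le_mul_of_nonneg_left _ (by positivity)
          exact mul_le_mul_of_nonneg_right hG2 hQ0
  have h2 : (b * V) * (33 * (M / b) * Q) = 33 * (M * V) * Q := by field_simp
  rw [h2] at h1
  have h3 : (b * π * L) ^ 2 = 64 * (b * π * L / 8) ^ 2 := by ring
  rw [h3]
  linarith

end Pool.Agent.U350.DL
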