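import Pool.Agent.U350.DL.Vec

/-!
First and second moments of the number of chosen classes through the points of a box.
-/

set_option autoImplicit false

namespace Pool.Agent.U350.DL

open Finset

theorem cls (T p : ℕ) (hp : 0 < p) (c : ZMod p) :
    ((T : ℝ) / p - 1 ≤ (((Icc 1 T).filter (fun n : ℕ => (n : ZMod p) = c)).card : ℝ)) ∧
    ((((Icc 1 T).filter (fun n : ℕ => (n : ZMod p) = c)).card : ℝ) ≤ (T : ℝ) / p + 1) := by
  haveI : NeZero p := ⟨hp.ne'⟩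
  have e : (Icc 1 T).filter (fun n : ℕ => (n : ZMod p) = c) = (Ioc 0 T).filter (fun n => n ≡ c.val [MOD p]) := by
    ext n
    rw [mem_filter, mem_filter, mem_Icc, mem_Ioc, ← ZMod.natCast_eq_natCast_iff, ZMod.natCast_zmod_val]
    constructor <;> (rintro ⟨⟨h1, h2⟩, h3⟩; exact ⟨⟨by omega, h2⟩, h3⟩)
  rw [e]
  have h := Nat.Ioc_filter_modEq_card 0 T hp c.val
  set k : ℕ := ((Ioc 0 T).filter (fun n => n ≡ c.val [MOD p])).card with hk
  set q1 : ℚ := ((T : ℚ) - (c.val : ℚ)) / p with hq1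
  set q2 : ℚ := (((0 : ℕ) : ℚ) - (c.val : ℚ)) / p with hq2
  have hp0 : (0 : ℚ) < p := by exact_mod_cast hp
  have hq : q1 - q2 = (T : ℚ) / p := by
    rw [hq1, hq2]; field_simp; simp
  have f1 : (⌊q1⌋ : ℚ) ≤ q1 := Int.floor_le q1
  have f2 : q1 < ⌊q1⌋ + 1 := Int.lt_floor_add_one q1
  have f3 : (⌊q2⌋ : ℚ) ≤ q2 := Int.floor_le q2
  have f4 : q2 < ⌊q2⌋ + 1 := Int.lt_floor_add_one q2
  have hkz : ((k : ℤ) : ℚ) = ((max (⌊q1⌋ - ⌊q2⌋) 0 : ℤ) : ℚ) := by exact_mod_cast h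
  have hT : (0 : ℚ) ≤ (T : ℚ) / p := by positivity
  have hk1 : (T : ℚ) / p - 1 ≤ (k : ℚ) := by
    have h1 : ((⌊q1⌋ - ⌊q2⌋ : ℤ) : ℚ) ≤ ((max (⌊q1⌋ - ⌊q2⌋) 0 : ℤ) : ℚ) := by
      exact_mod_cast le_max_left _ _
    rw [← hkz] at h1
    push_cast at h1
    linarith
  have hk2 : (k : ℚ) ≤ (T : ℚ) / p + 1 := by
    have h1 : ((k : ℤ) : ℚ) ≤ (T : ℚ) / p + 1 := by
      rw [hkz]
      rcases max_choice (⌊q1⌋ - ⌊q2⌋) 0 with h2 | h2 <;> rw [h2]
      · push_cast; linarith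
      · push_cast; linarith
    exact_mod_cast h1
  constructor
  · have : (((T : ℚ) / p - 1 : ℚ) : ℝ) ≤ ((k : ℚ) : ℝ) := by exact_mod_cast hk1
    push_cast at this; exact this
  · have : ((k : ℚ) : ℝ) ≤ (((T : ℚ) / p + 1 : ℚ) : ℝ) := by exact_mod_cast hk2
    push_cast at this; exact this

/-- the primes of `P` whose chosen class, multiplied by `m`, contains `n` -/
def hit (P : Finset ℕ) (a : (p : ℕ) → ZMod p) (m n : ℕ) : Finset ℕ :=
  P.filter (fun p => (n : ZMod p) = (m : ZMod p) * a p)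

/-- the box -/
def box (M N : ℕ) : Finset (ℕ × ℕ) := Icc 1 M ×ˢ Icc 1 N

/-- the primitive vectors of the box -/
def prim (M N : ℕ) : Finset (ℕ × ℕ) := (box M N).filter (fun v => Nat.Coprime v.1 v.2)

theorem mem_box {M N : ℕ} {v : ℕ × ℕ} : v ∈ box M N ↔ (1 ≤ v.1 ∧ v.1 ≤ M) ∧ 1 ≤ v.2 ∧ v.2 ≤ N := by
  rw [box, mem_product, mem_Icc, mem_Icc]

variable {P : Finset ℕ} {a : (p : ℕ) → ZMod p} {M N : ℕ} {x : ℝ}

theorem dvd_det {p : ℕ} {u v : ℕ × ℕ} (hu : (u.2 : ZMod p) = (u.1 : ZMod p) * a p)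
    (hv : (v.2 : ZMod p) = (v.1 : ZMod p) * a p) : (p : ℤ) ∣ (u.1 : ℤ) * v.2 - u.2 * v.1 := by
  rw [← ZMod.intCast_zmod_eq_zero_iff_dvd]
  push_cast
  rw [hu, hv]; ring

/-- second moment over the primitive vectors -/
theorem second (hP : ∀ p ∈ P, p.Prime ∧ x ≤ p) (hx : 0 < x) (hM : 1 ≤ M) (hN : 1 ≤ N) :
    ∑ v ∈ prim M N, ((hit P a v.1 v.2).card : ℝ) ^ 2 ≤
      P.card * (2 + 2 * (M * N) / x) + (P.card : ℝ) ^ 2 * (2 + 2 * (M * N) / x ^ 2) := by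
  classical
  have hM0 : (0 : ℝ) < M := by exact_mod_cast hM
  have hN0 : (0 : ℝ) < N := by exact_mod_cast hN
  set I : ℕ → ℕ × ℕ → ℝ := fun p v => if (v.2 : ZMod p) = (v.1 : ZMod p) * a p then 1 else 0 with hI
  have hk : ∀ v : ℕ × ℕ, ((hit P a v.1 v.2).card : ℝ) ^ 2 = ∑ p ∈ P, ∑ q ∈ P, I p v * I q v := by
    intro v
    have h1 : ((hit P a v.1 v.2).card : ℝ) = ∑ p ∈ P, I p v := by
      rw [hit, card_filter]; push_cast; rfl
    rw [h1, sq, sum_mul_sum]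
  simp_rw [hk]
  rw [sum_comm]
  have key : ∀ p ∈ P, ∀ q ∈ P, ∑ v ∈ prim M N, I p v * I q v ≤
      (if p = q then (2 + 2 * (M * N) / x) else 0) + (2 + 2 * (M * N) / x ^ 2) := by
    intro p hp q hq
    have hpp := (hP p hp).1
    have hqq := (hP q hq).1
    have hpx : x ≤ p := (hP p hp).2
    have hqx : x ≤ q := (hP q hq).2
    set F : Finset (ℕ × ℕ) := (prim M N).filter
      (fun v => (v.2 : ZMod p) = (v.1 : ZMod p) * a p ∧ (v.2 : ZMod q) = (v.1 : ZMod q) * a q) with hF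
    have h1 : ∑ v ∈ prim M N, I p v * I q v = (F.card : ℝ) := by
      rw [hF, card_filter]; push_cast
      apply sum_congr rfl
      intro v _
      rw [hI]
      by_cases h2 : (v.2 : ZMod p) = (v.1 : ZMod p) * a p
      · by_cases h3 : (v.2 : ZMod q) = (v.1 : ZMod q) * a q
        · simp [h2, h3]
        · simp [h3]
      · simp [h2]
    have hFV : ∀ v ∈ F, 1 ≤ v.1 ∧ v.1 ≤ M ∧ 1 ≤ v.2 ∧ v.2 ≤ N := by
      intro v hv
      rw [hF, mem_filter, prim, mem_filter, mem_box] at hv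
      obtain ⟨⟨⟨⟨h1, h2⟩, h3, h4⟩, _⟩, _⟩ := hv
      exact ⟨h1, h2, h3, h4⟩
    have hFc : ∀ v ∈ F, Nat.Coprime v.1 v.2 := by
      intro v hv
      rw [hF, mem_filter, prim, mem_filter] at hv
      exact hv.1.2
    rw [h1]
    by_cases hpq : p = q
    · rw [if_pos hpq]
      have h2 := prim_card F hM hN hpp.pos hFV hFc (fun u hu v hv => by
        rw [hF, mem_filter] at hu hv
        exact dvd_det hu.2.1 hv.2.1)
      have h3 : 2 * (M * N : ℝ) / p ≤ 2 * (M * N) / x := div_le_div_of_nonneg_left (by positivity) hx hpx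
      have h4 : (0 : ℝ) ≤ 2 + 2 * (M * N) / x ^ 2 := by positivity
      linarith
    · rw [if_neg hpq]
      have hco : IsCoprime (p : ℤ) (q : ℤ) := Nat.isCoprime_iff_coprime.2 ((Nat.coprime_primes hpp hqq).2 hpq)
      have h2 := prim_card F hM hN (D := p * q) (Nat.mul_pos hpp.pos hqq.pos) hFV hFc (fun u hu v hv => by
        rw [hF, mem_filter] at hu hv
        push_cast
        exact hco.mul_dvd (dvd_det hu.2.1 hv.2.1) (dvd_det hu.2.2 hv.2.2))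
      have h3 : 2 * (M * N : ℝ) / ((p * q : ℕ) : ℝ) ≤ 2 * (M * N) / x ^ 2 := by
        apply div_le_div_of_nonneg_left (by positivity) (by positivity)
        push_cast
        rw [sq]
        exact mul_le_mul hpx hqx hx.le (by linarith)
      linarith
  calc ∑ p ∈ P, ∑ v ∈ prim M N, ∑ q ∈ P, I p v * I q v
      = ∑ p ∈ P, ∑ q ∈ P, ∑ v ∈ prim M N, I p v * I q v := by
        apply sum_congr rfl; intro p _; rw [sum_comm]
    _ ≤ ∑ p ∈ P, ∑ q ∈ P, ((if p = q then (2 + 2 * (M * N : ℝ) / x) else 0) + (2 + 2 * (M * N) / x ^ 2)) :=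
        sum_le_sum fun p hp => sum_le_sum fun q hq => key p hp q hq
    _ = P.card * (2 + 2 * (M * N) / x) + (P.card : ℝ) ^ 2 * (2 + 2 * (M * N) / x ^ 2) := by
        simp_rw [sum_add_distrib, sum_const, sum_ite_eq]
        rw [sum_ite_mem]
        simp
        ring

theorem hit_scale (hP : ∀ p ∈ P, p.Prime) (g m n : ℕ) (hg : ∀ p ∈ P, ¬ p ∣ g) :
    hit P a (g * m) (g * n) = hit P a m n := by
  unfold hit
  apply filter_congr
  intro p hp
  haveI : Fact p.Prime := ⟨hP p hp⟩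
  have h0 : (g : ZMod p) ≠ 0 := by
    rw [Ne, ZMod.natCast_eq_zero_iff]; exact hg p hp
  push_cast
  rw [mul_assoc]
  exact mul_right_inj' h0

/-- splitting off the greatest common divisor -/
def phi (v : ℕ × ℕ) : ℕ × (ℕ × ℕ) := (Nat.gcd v.1 v.2, (v.1 / Nat.gcd v.1 v.2, v.2 / Nat.gcd v.1 v.2))

theorem phi_inj : Set.InjOn phi {v | 1 ≤ v.1} := by
  intro u hu v hv h
  unfold phi at h
  rw [Prod.mk.injEq, Prod.mk.injEq] at h
  obtain ⟨h1, h2, h3⟩ := h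
  have a1 : u.1 = Nat.gcd u.1 u.2 * (u.1 / Nat.gcd u.1 u.2) := (Nat.mul_div_cancel' (Nat.gcd_dvd_left _ _)).symm
  have a2 : u.2 = Nat.gcd u.1 u.2 * (u.2 / Nat.gcd u.1 u.2) := (Nat.mul_div_cancel' (Nat.gcd_dvd_right _ _)).symm
  have b1 : v.1 = Nat.gcd v.1 v.2 * (v.1 / Nat.gcd v.1 v.2) := (Nat.mul_div_cancel' (Nat.gcd_dvd_left _ _)).symm
  have b2 : v.2 = Nat.gcd v.1 v.2 * (v.2 / Nat.gcd v.1 v.2) := (Nat.mul_div_cancel' (Nat.gcd_dvd_right _ _)).symm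
  apply Prod.ext
  · rw [a1, b1, h2, h1]
  · rw [a2, b2, h3, h1]

theorem hit_phi (hP : ∀ p ∈ P, p.Prime ∧ M < p) {v : ℕ × ℕ} (hv : v ∈ box M N) :
    hit P a v.1 v.2 = hit P a (phi v).2.1 (phi v).2.2 := by
  rw [mem_box] at hv
  have a1 : v.1 = Nat.gcd v.1 v.2 * (v.1 / Nat.gcd v.1 v.2) := (Nat.mul_div_cancel' (Nat.gcd_dvd_left _ _)).symm
  have a2 : v.2 = Nat.gcd v.1 v.2 * (v.2 / Nat.gcd v.1 v.2) := (Nat.mul_div_cancel' (Nat.gcd_dvd_right _ _)).symm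
  have h := hit_scale (P := P) (a := a) (fun p hp => (hP p hp).1) (Nat.gcd v.1 v.2)
    (v.1 / Nat.gcd v.1 v.2) (v.2 / Nat.gcd v.1 v.2) (by
      intro p hp hd
      have h1 : p ≤ Nat.gcd v.1 v.2 := Nat.le_of_dvd (Nat.gcd_pos_of_pos_left _ hv.1.1) hd
      have h2 : Nat.gcd v.1 v.2 ≤ v.1 := Nat.gcd_le_left _ hv.1.1
      have h3 := (hP p hp).2
      omega)
  rw [← a1, ← a2] at h
  exact h

theorem phi_mem_prim {v : ℕ × ℕ} (hv : v ∈ box M N) : (phi v).2 ∈ prim M N := by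
  rw [mem_box] at hv
  have hg : 0 < Nat.gcd v.1 v.2 := Nat.gcd_pos_of_pos_left _ hv.1.1
  rw [prim, mem_filter, mem_box]
  refine ⟨⟨⟨?_, ?_⟩, ?_, ?_⟩, Nat.coprime_div_gcd_div_gcd hg⟩
  · exact Nat.div_pos (Nat.gcd_le_left _ hv.1.1) hg
  · exact (Nat.div_le_self _ _).trans hv.1.2
  · exact Nat.div_pos (Nat.gcd_le_right _ hv.2.1) hg
  · exact (Nat.div_le_self _ _).trans hv.2.2

/-- second moment over the vectors with small greatest common divisor -/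
theorem second_gcd (hP : ∀ p ∈ P, p.Prime ∧ M < p) (G : ℕ) :
    ∑ v ∈ (box M N).filter (fun v => Nat.gcd v.1 v.2 < G), ((hit P a v.1 v.2).card : ℝ) ^ 2 ≤
      G * ∑ v ∈ prim M N, ((hit P a v.1 v.2).card : ℝ) ^ 2 := by
  classical
  set A := (box M N).filter (fun v => Nat.gcd v.1 v.2 < G) with hA
  set f : ℕ × (ℕ × ℕ) → ℝ := fun y => ((hit P a y.2.1 y.2.2).card : ℝ) ^ 2 with hf
  have h1 : ∑ v ∈ A, ((hit P a v.1 v.2).card : ℝ) ^ 2 = ∑ v ∈ A, f (phi v) := by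
    apply sum_congr rfl
    intro v hv
    rw [hA, mem_filter] at hv
    rw [hf, hit_phi hP hv.1]
  have hinj : Set.InjOn phi (A : Set (ℕ × ℕ)) := by
    intro u hu v hv h
    rw [mem_coe, hA, mem_filter, mem_box] at hu hv
    exact phi_inj hu.1.1.1 hv.1.1.1 h
  rw [h1, ← sum_image (f := f) hinj]
  have h2 : A.image phi ⊆ range G ×ˢ prim M N := by
    intro y hy
    rw [mem_image] at hy
    obtain ⟨v, hv, rfl⟩ := hy
    rw [hA, mem_filter] at hv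
    rw [mem_product, mem_range]
    exact ⟨hv.2, phi_mem_prim hv.1⟩
  calc ∑ y ∈ A.image phi, f y ≤ ∑ y ∈ range G ×ˢ prim M N, f y :=
        sum_le_sum_of_subset_of_nonneg h2 (fun y _ _ => by rw [hf]; positivity)
    _ = G * ∑ v ∈ prim M N, ((hit P a v.1 v.2).card : ℝ) ^ 2 := by
        rw [sum_product]; simp [hf]

end Pool.Agent.U350.DL
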