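import Mathlib

/-!
Vectors with large determinants in a box; number of vectors in a residue class.
-/

set_option autoImplicit false

namespace Pool.Agent.U350.DL

open Finset

theorem sep_card {ι : Type*} (V : Finset ι) (f : ι → ℝ) {L δ : ℝ} (hδ : 0 < δ)
    (h0 : ∀ v ∈ V, 0 ≤ f v) (h1 : ∀ v ∈ V, f v ≤ L)
    (hs : ∀ u ∈ V, ∀ v ∈ V, u ≠ v → δ ≤ |f u - f v|) (hL : 0 ≤ L) : (V.card : ℝ) ≤ L / δ + 1 := by
  have h : V.card ≤ (range (⌊L / δ⌋₊ + 1)).card := by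
    refine card_le_card_of_injOn (fun v => ⌊f v / δ⌋₊) ?_ ?_
    · intro v hv
      rw [mem_coe, mem_range]
      exact Nat.lt_succ_of_le (Nat.floor_le_floor (div_le_div_of_nonneg_right (h1 v hv) hδ.le))
    · intro u hu v hv huv
      by_contra hne
      have h2 := hs u hu v hv hne
      have hu0 : 0 ≤ f u / δ := div_nonneg (h0 u hu) hδ.le
      have hv0 : 0 ≤ f v / δ := div_nonneg (h0 v hv) hδ.le
      have a1 := Nat.floor_le hu0
      have a2 := Nat.lt_floor_add_one (f u / δ)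
      have b1 := Nat.floor_le hv0
      have b2 := Nat.lt_floor_add_one (f v / δ)
      have e : (⌊f u / δ⌋₊ : ℝ) = ⌊f v / δ⌋₊ := by exact_mod_cast huv
      have h3 : |f u / δ - f v / δ| < 1 := by
        rw [abs_lt]; constructor <;> linarith
      have h4 : f u / δ - f v / δ = (f u - f v) / δ := by ring
      rw [h4, abs_div, abs_of_pos hδ, div_lt_one hδ] at h3
      linarith
  rw [card_range] at h
  have h2 : (V.card : ℝ) ≤ (⌊L / δ⌋₊ : ℝ) + 1 := by exact_mod_cast h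
  have h3 := Nat.floor_le (div_nonneg hL hδ.le)
  linarith

/-- vectors in a box with pairwise determinants at least `D` -/
theorem det_card (V : Finset (ℕ × ℕ)) {M N : ℕ} (hM : 1 ≤ M) (hN : 1 ≤ N) {D : ℝ} (hD : 0 < D)
    (hV : ∀ v ∈ V, 1 ≤ v.1 ∧ v.1 ≤ M ∧ 1 ≤ v.2 ∧ v.2 ≤ N)
    (hs : ∀ u ∈ V, ∀ v ∈ V, u ≠ v → D ≤ |(u.1 : ℝ) * v.2 - u.2 * v.1|) :
    (V.card : ℝ) ≤ 2 + 2 * (M * N) / D := by
  have hM0 : (0 : ℝ) < M := by exact_mod_cast hM
  have hN0 : (0 : ℝ) < N := by exact_mod_cast hN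
  have hcard := card_filter_add_card_filter_not (s := V) (fun v : ℕ × ℕ => v.2 * M ≤ N * v.1)
  have hp : ∀ v ∈ V, (0 : ℝ) < v.1 ∧ (v.1 : ℝ) ≤ M ∧ (0 : ℝ) < v.2 ∧ (v.2 : ℝ) ≤ N := by
    intro v hv
    obtain ⟨a, b, c, d⟩ := hV v hv
    exact ⟨by exact_mod_cast a, by exact_mod_cast b, by exact_mod_cast c, by exact_mod_cast d⟩
  have h1 : ((V.filter (fun v : ℕ × ℕ => v.2 * M ≤ N * v.1)).card : ℝ) ≤ (N / M) / (D / (M * M)) + 1 := by
    refine sep_card _ (fun v => (v.2 : ℝ) / v.1) (by positivity) ?_ ?_ ?_ (by positivity)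
    · intro v _; positivity
    · intro v hv
      rw [mem_filter] at hv
      obtain ⟨hv1, hv2⟩ := hv
      obtain ⟨a, b, c, d⟩ := hp v hv1
      have h2 : (v.2 : ℝ) * M ≤ N * v.1 := by exact_mod_cast hv2
      rw [div_le_div_iff₀ a hM0]; exact h2
    · intro u hu v hv huv
      rw [mem_filter] at hu hv
      obtain ⟨a, b, c, d⟩ := hp u hu.1
      obtain ⟨a', b', c', d'⟩ := hp v hv.1
      have e : (u.2 : ℝ) / u.1 - v.2 / v.1 = -(((u.1 : ℝ) * v.2 - u.2 * v.1) / (u.1 * v.1)) := by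
        field_simp; ring
      rw [e, abs_neg, abs_div, abs_of_pos (mul_pos a a')]
      have h3 := hs u hu.1 v hv.1 huv
      have h4 : (u.1 : ℝ) * v.1 ≤ M * M := mul_le_mul b b' a'.le hM0.le
      calc D / (M * M) ≤ D / (u.1 * v.1) := div_le_div_of_nonneg_left hD.le (mul_pos a a') h4
        _ ≤ _ := div_le_div_of_nonneg_right h3 (mul_pos a a').le
  have h2 : ((V.filter (fun v : ℕ × ℕ => ¬ (v.2 * M ≤ N * v.1))).card : ℝ) ≤ (M / N) / (D / (N * N)) + 1 := by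
    refine sep_card _ (fun v => (v.1 : ℝ) / v.2) (by positivity) ?_ ?_ ?_ (by positivity)
    · intro v _; positivity
    · intro v hv
      rw [mem_filter] at hv
      obtain ⟨hv1, hv2⟩ := hv
      obtain ⟨a, b, c, d⟩ := hp v hv1
      have h2 : (N : ℝ) * v.1 ≤ v.2 * M := by
        have : N * v.1 ≤ v.2 * M := by omega
        exact_mod_cast this
      rw [div_le_div_iff₀ c hN0]; linarith
    · intro u hu v hv huv
      rw [mem_filter] at hu hv
      obtain ⟨a, b, c, d⟩ := hp u hu.1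
      obtain ⟨a', b', c', d'⟩ := hp v hv.1
      have e : (u.1 : ℝ) / u.2 - v.1 / v.2 = (((u.1 : ℝ) * v.2 - u.2 * v.1) / (u.2 * v.2)) := by
        field_simp
      rw [e, abs_div, abs_of_pos (mul_pos c c')]
      have h3 := hs u hu.1 v hv.1 huv
      have h4 : (u.2 : ℝ) * v.2 ≤ N * N := mul_le_mul d d' c'.le hN0.le
      calc D / (N * N) ≤ D / (u.2 * v.2) := div_le_div_of_nonneg_left hD.le (mul_pos c c') h4
        _ ≤ _ := div_le_div_of_nonneg_right h3 (mul_pos c c').le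
  have e1 : (N / M : ℝ) / (D / (M * M)) = M * N / D := by field_simp
  have e2 : (M / N : ℝ) / (D / (N * N)) = M * N / D := by field_simp
  rw [e1] at h1
  rw [e2] at h2
  have h3 : (V.card : ℝ) = ((V.filter (fun v : ℕ × ℕ => v.2 * M ≤ N * v.1)).card : ℝ) +
      ((V.filter (fun v : ℕ × ℕ => ¬ (v.2 * M ≤ N * v.1))).card : ℝ) := by
    rw [← hcard]; push_cast; ring
  rw [h3]
  have e3 : 2 * (M * N : ℝ) / D = M * N / D + M * N / D := by ring
  rw [e3]; linarith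

/-- primitive vectors congruent along one direction modulo `D` -/
theorem prim_card (V : Finset (ℕ × ℕ)) {M N : ℕ} (hM : 1 ≤ M) (hN : 1 ≤ N) {D : ℕ} (hD : 0 < D)
    (hV : ∀ v ∈ V, 1 ≤ v.1 ∧ v.1 ≤ M ∧ 1 ≤ v.2 ∧ v.2 ≤ N) (hco : ∀ v ∈ V, Nat.Coprime v.1 v.2)
    (hs : ∀ u ∈ V, ∀ v ∈ V, (D : ℤ) ∣ (u.1 : ℤ) * v.2 - u.2 * v.1) :
    (V.card : ℝ) ≤ 2 + 2 * (M * N) / D := by
  refine det_card V hM hN (by exact_mod_cast hD) hV ?_
  intro u hu v hv huv
  have h1 := hs u hu v hv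
  have h2 : (u.1 : ℤ) * v.2 - u.2 * v.1 ≠ 0 := by
    intro h0
    apply huv
    have h3 : u.1 * v.2 = u.2 * v.1 := by
      have : (u.1 : ℤ) * v.2 = u.2 * v.1 := by linarith
      exact_mod_cast this
    have hcu := hco u hu
    have hcv := hco v hv
    have d1 : u.1 ∣ v.1 := hcu.dvd_of_dvd_mul_left (Dvd.intro _ h3)
    have d2 : v.1 ∣ u.1 := hcv.dvd_of_dvd_mul_right (Dvd.intro_left _ h3.symm)
    have e1 : u.1 = v.1 := Nat.dvd_antisymm d1 d2
    have e2 : u.2 = v.2 := by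
      rw [e1] at h3
      have hpos : 0 < v.1 := (hV v hv).1
      have : v.1 * v.2 = v.1 * u.2 := by rw [h3]; ring
      exact (Nat.eq_of_mul_eq_mul_left hpos this).symm
    exact Prod.ext e1 e2
  have h3 : (D : ℤ) ≤ |(u.1 : ℤ) * v.2 - u.2 * v.1| :=
    Int.le_of_dvd (abs_pos.2 h2) ((dvd_abs _ _).2 h1)
  have h4 : ((D : ℤ) : ℝ) ≤ ((|(u.1 : ℤ) * v.2 - u.2 * v.1| : ℤ) : ℝ) := by exact_mod_cast h3
  push_cast at h4
  exact h4

end Pool.Agent.U350.DL
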